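import Pool.Agent.W248.RG.Stm

/-! FAM: the family of semigroups with many relations. -/

namespace Pool.Agent.W686.RG.FAM

open Pool.Agent.W248.RG

theorem digits (r : ℕ) : ∀ (n : ℕ) (c d : Fin n → ℕ), (∀ i, c i < r) → (∀ i, d i < r) →
    ∑ i, c i * r ^ (i : ℕ) = ∑ i, d i * r ^ (i : ℕ) → c = d
  | 0, c, d, _, _, _ => by funext i; exact i.elim0
  | n + 1, c, d, hc, hd, h => by
    have key : ∀ e : Fin (n + 1) → ℕ, ∑ i, e i * r ^ (i : ℕ) =
        e 0 + r * ∑ i : Fin n, e i.succ * r ^ (i : ℕ) := by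
      intro e
      rw [Fin.sum_univ_succ, Finset.mul_sum]
      congr 1
      · simp
      · refine Finset.sum_congr rfl fun i _ => ?_
        rw [Fin.val_succ, pow_succ]; ring
    rw [key c, key d] at h
    have hr : 0 < r := lt_of_le_of_lt (Nat.zero_le _) (hc 0)
    have h0 : c 0 = d 0 := by
      have h1 := congrArg (· % r) h
      simp only [Nat.add_mul_mod_self_left] at h1
      rwa [Nat.mod_eq_of_lt (hc 0), Nat.mod_eq_of_lt (hd 0)] at h1
    have h2 : ∑ i : Fin n, c i.succ * r ^ (i : ℕ) = ∑ i : Fin n, d i.succ * r ^ (i : ℕ) := by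
      rw [h0] at h
      exact Nat.eq_of_mul_eq_mul_left hr (Nat.add_left_cancel h)
    have h3 := digits r n (fun i => c i.succ) (fun i => d i.succ) (fun i => hc _) (fun i => hd _) h2
    funext i
    refine Fin.cases h0 (fun j => ?_) i
    exact congrFun h3 j

/-- the arithmetic core -/
theorem core (s R m H x y p b p0 b0 : ℕ) (hs : 1 ≤ s) (hH : (s + 1) * (R + 1) ≤ H)
    (hm : (s + 1) * H < m + (s + 1)) (hb : b ≤ p * R) (hb0 : b0 ≤ p0 * R) (hp0 : p0 ≤ s)
    (h : x * m + y * (m + 1) + p * ((R + 1) * m + H) + b = p0 * ((R + 1) * m + H) + b0) :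
    p = p0 ∧ x = 0 ∧ y = 0 ∧ b = b0 := by
  have h1 : p0 * H ≤ s * H := Nat.mul_le_mul_right _ hp0
  have h2 : p0 * R ≤ s * R := Nat.mul_le_mul_right _ hp0
  have h3 : p0 * H + b0 < m := by nlinarith
  have h4 : (x + y + p * (R + 1)) * m + (y + p * H + b) = p0 * (R + 1) * m + (p0 * H + b0) := by
    nlinarith
  have h5 : x + y + p * (R + 1) ≤ p0 * (R + 1) := by
    by_contra hc
    push Not at hc
    have h6 : (p0 * (R + 1) + 1) * m ≤ (x + y + p * (R + 1)) * m := Nat.mul_le_mul_right _ hc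
    nlinarith
  have h7 : p ≤ p0 := by
    have h8 : p * (R + 1) ≤ p0 * (R + 1) := by omega
    exact Nat.le_of_mul_le_mul_right h8 (Nat.succ_pos R)
  have h9 : p0 * H + b0 ≤ y + p * H + b := by
    have h10 : (x + y + p * (R + 1)) * m ≤ p0 * (R + 1) * m := Nat.mul_le_mul_right _ h5
    omega
  have h11 : p = p0 := by
    by_contra hne
    have h12 : p + 1 ≤ p0 := by omega
    have h13 : (p + 1) * H ≤ p0 * H := Nat.mul_le_mul_right _ h12
    have h14 : p0 * (R + 1) ≤ s * (R + 1) := Nat.mul_le_mul_right _ hp0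
    have h15 : p * R ≤ p * (R + 1) := Nat.mul_le_mul_left _ (Nat.le_succ R)
    nlinarith
  subst h11
  have h16 : x = 0 := by omega
  have h17 : y = 0 := by omega
  subst h16; subst h17
  refine ⟨rfl, rfl, rfl, ?_⟩
  have h18 : p * ((R + 1) * m + H) + b = p * ((R + 1) * m + H) + b0 := by
    simpa using h
  omega

/-- the generators -/
def gf (m K H r : ℕ) : ℕ → ℕ
  | 0 => m
  | 1 => m + 1
  | 2 => K * m + H
  | (i + 3) => K * m + H + r ^ i

theorem deg_g (n m K H r : ℕ) (v : Fin (n + 3) →₀ ℕ) :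
    deg (fun i : Fin (n + 3) => gf m K H r i) v = v 0 * m + v 1 * (m + 1) +
      (v 2 + ∑ i : Fin n, v i.succ.succ.succ) * (K * m + H) +
      ∑ i : Fin n, v i.succ.succ.succ * r ^ (i : ℕ) := by
  unfold deg
  rw [Fin.sum_univ_succ, Fin.sum_univ_succ, Fin.sum_univ_succ]
  have h1 : ∀ i : Fin n, v i.succ.succ.succ * gf m K H r ((i.succ.succ.succ : Fin (n + 3)) : ℕ) =
      v i.succ.succ.succ * (K * m + H) + v i.succ.succ.succ * r ^ (i : ℕ) := by
    intro i
    have : ((i.succ.succ.succ : Fin (n + 3)) : ℕ) = (i : ℕ) + 3 := by simp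
    rw [this]
    show v i.succ.succ.succ * (K * m + H + r ^ (i : ℕ)) = _
    ring
  rw [Finset.sum_congr rfl (fun i _ => h1 i), Finset.sum_add_distrib, ← Finset.sum_mul]
  have e0 : gf m K H r ((0 : Fin (n + 3)) : ℕ) = m := rfl
  have e1 : gf m K H r (((0 : Fin (n + 2)).succ : Fin (n + 3)) : ℕ) = m + 1 := rfl
  have e2 : gf m K H r ((((0 : Fin (n + 1)).succ : Fin (n + 2)).succ : Fin (n + 3)) : ℕ) =
    K * m + H := rfl
  show v 0 * m + (v 1 * (m + 1) + (v 2 * (K * m + H) +
    ((∑ i : Fin n, v i.succ.succ.succ) * (K * m + H) +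
      ∑ i : Fin n, v i.succ.succ.succ * r ^ (i : ℕ)))) = _
  ring

theorem sum_v (n : ℕ) (v : Fin (n + 3) →₀ ℕ) :
    ∑ i, v i = v 0 + v 1 + (v 2 + ∑ i : Fin n, v i.succ.succ.succ) := by
  rw [Fin.sum_univ_succ, Fin.sum_univ_succ, Fin.sum_univ_succ]
  have f1 : ((0 : Fin (n + 2)).succ : Fin (n + 3)) = 1 := rfl
  have f2 : ((((0 : Fin (n + 1)).succ : Fin (n + 2)).succ : Fin (n + 3))) = 2 := rfl
  rw [f1, f2]
  ring

theorem beta_le (n r : ℕ) (hr : 1 ≤ r) (c : Fin n → ℕ) :
    ∑ i : Fin n, c i * r ^ (i : ℕ) ≤ (∑ i : Fin n, c i) * r ^ (n - 1) := by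
  rw [Finset.sum_mul]
  refine Finset.sum_le_sum fun i _ => Nat.mul_le_mul_left _ ?_
  exact Nat.pow_le_pow_right hr (by have := i.2; omega)

theorem uniq (n r m H : ℕ) (hr : 2 ≤ r) (hH : r * (r ^ (n - 1) + 1) ≤ H)
    (hm : r * H < m + r) (a v : Fin (n + 3) →₀ ℕ) (ha0 : a 0 = 0) (ha1 : a 1 = 0)
    (ha : ∑ i, a i + 1 ≤ r)
    (h : deg (fun i : Fin (n + 3) => gf m (r ^ (n - 1) + 1) H r i) v =
      deg (fun i : Fin (n + 3) => gf m (r ^ (n - 1) + 1) H r i) a) : v = a := by
  obtain ⟨s, rfl⟩ : ∃ s, r = s + 1 := ⟨r - 1, by omega⟩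
  rw [deg_g, deg_g, ha0, ha1] at h
  rw [sum_v, ha0, ha1] at ha
  have hba := beta_le n (s + 1) (by omega) (fun i => a i.succ.succ.succ)
  have hbv := beta_le n (s + 1) (by omega) (fun i => v i.succ.succ.succ)
  have hba' : ∑ i : Fin n, a i.succ.succ.succ * (s + 1) ^ (i : ℕ) ≤
      (a 2 + ∑ i : Fin n, a i.succ.succ.succ) * (s + 1) ^ (n - 1) :=
    hba.trans (Nat.mul_le_mul_right _ (Nat.le_add_left _ _))
  have hbv' : ∑ i : Fin n, v i.succ.succ.succ * (s + 1) ^ (i : ℕ) ≤
      (v 2 + ∑ i : Fin n, v i.succ.succ.succ) * (s + 1) ^ (n - 1) :=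
    hbv.trans (Nat.mul_le_mul_right _ (Nat.le_add_left _ _))
  obtain ⟨h1, h2, h3, h4⟩ := core s ((s + 1) ^ (n - 1)) m H (v 0) (v 1)
    (v 2 + ∑ i : Fin n, v i.succ.succ.succ) (∑ i : Fin n, v i.succ.succ.succ * (s + 1) ^ (i : ℕ))
    (a 2 + ∑ i : Fin n, a i.succ.succ.succ) (∑ i : Fin n, a i.succ.succ.succ * (s + 1) ^ (i : ℕ))
    (by omega) hH hm hbv' hba' (by omega) (by simpa using h)
  have hva : ∀ i : Fin n, v i.succ.succ.succ < s + 1 := by
    intro i
    have : v i.succ.succ.succ ≤ ∑ i : Fin n, v i.succ.succ.succ :=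
      Finset.single_le_sum (f := fun i : Fin n => v i.succ.succ.succ)
      (fun i _ => Nat.zero_le _) (Finset.mem_univ i)
    omega
  have haa : ∀ i : Fin n, a i.succ.succ.succ < s + 1 := by
    intro i
    have : a i.succ.succ.succ ≤ ∑ i : Fin n, a i.succ.succ.succ :=
      Finset.single_le_sum (f := fun i : Fin n => a i.succ.succ.succ)
      (fun i _ => Nat.zero_le _) (Finset.mem_univ i)
    omega
  have h5 := digits (s + 1) n (fun i => v i.succ.succ.succ) (fun i => a i.succ.succ.succ) hva haa h4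
  have h6 : ∑ i : Fin n, v i.succ.succ.succ = ∑ i : Fin n, a i.succ.succ.succ := by
    refine Finset.sum_congr rfl fun i _ => congrFun h5 i
  have h7 : v 2 = a 2 := by omega
  ext i
  refine Fin.cases (by rw [h2, ha0]) (fun i => ?_) i
  refine Fin.cases ?_ (fun i => ?_) i
  · show v 1 = a 1
    rw [h3, ha1]
  refine Fin.cases ?_ (fun i => ?_) i
  · exact h7
  exact congrFun h5 i

theorem gf_mono (m K H r : ℕ) (hm : 2 ≤ m) (hK : 2 ≤ K) (hr : 2 ≤ r) : StrictMono (gf m K H r) := by
  refine strictMono_nat_of_lt_succ fun i => ?_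
  match i with
  | 0 => show m < m + 1; omega
  | 1 => show m + 1 < K * m + H; nlinarith
  | 2 => show K * m + H < K * m + H + r ^ 0; simp
  | (i + 3) =>
    show K * m + H + r ^ i < K * m + H + r ^ (i + 1)
    have : r ^ i < r ^ (i + 1) := Nat.pow_lt_pow_right (show 1 < r by omega) (Nat.lt_succ_self i)
    omega

theorem mem_cl {k : ℕ} (g : Fin k → ℕ) (i : Fin k) (z : ℕ)
    (hz : z ∈ AddSubmonoid.closure (g '' {j : Fin k | j ≠ i})) :
    ∃ v : Fin k →₀ ℕ, v i = 0 ∧ deg g v = z := by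
  induction hz using AddSubmonoid.closure_induction with
  | mem x hx =>
    obtain ⟨j, hj, rfl⟩ := hx
    refine ⟨Finsupp.single j 1, ?_, ?_⟩
    · rw [Finsupp.single_apply, if_neg]; exact hj
    · unfold deg
      rw [Finset.sum_eq_single j]
      · simp
      · intro b _ hb
        rw [Finsupp.single_apply, if_neg (Ne.symm hb), zero_mul]
      · simp
  | zero => exact ⟨0, rfl, by simp [deg]⟩
  | add x y _ _ hx hy =>
    obtain ⟨v, hv, hv'⟩ := hx
    obtain ⟨w, hw, hw'⟩ := hy
    refine ⟨v + w, by simp [hv, hw], ?_⟩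
    rw [← hv', ← hw']
    simp [deg, add_mul, Finset.sum_add_distrib]

theorem main : S_FAM := by
  intro n r m hn hr hm
  obtain ⟨K, hK⟩ : ∃ K, K = r ^ (n - 1) + 1 := ⟨_, rfl⟩
  obtain ⟨H, hH⟩ : ∃ H, H = (m + r - 1) / r := ⟨_, rfl⟩
  have hr0 : 0 < r := by omega
  have hH1 : m ≤ r * H := by
    have h1 := Nat.div_add_mod (m + r - 1) r
    have h2 := Nat.mod_lt (m + r - 1) hr0
    rw [← hH] at h1
    omega
  have hH2 : r * H < m + r := by
    have h1 := Nat.div_add_mod (m + r - 1) r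
    rw [← hH] at h1
    omega
  have hpow : r ^ (n + 1) = r * (r * r ^ (n - 1)) := by
    obtain ⟨k, rfl⟩ : ∃ k, n = k + 1 := ⟨n - 1, by omega⟩
    rw [Nat.add_sub_cancel, pow_succ, pow_succ]; ring
  have hR1 : 1 ≤ r ^ (n - 1) := Nat.one_le_pow _ _ hr0
  have hH3 : r * K ≤ H := by
    have h1 : r * (r * K) ≤ r * H := by
      rw [hK]
      have : r * r ≤ r * (r * r ^ (n - 1)) := by
        apply Nat.mul_le_mul_left
        exact Nat.le_mul_of_pos_right _ hR1
      rw [hpow] at hm
      nlinarith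
    exact Nat.le_of_mul_le_mul_left h1 hr0
  have hm2 : 2 ≤ m := by
    have : 1 ≤ r ^ (n + 1) := Nat.one_le_pow _ _ hr0
    omega
  have hK2 : 2 ≤ K := by omega
  have hmono := gf_mono m K H r hm2 hK2 hr
  have hUN : ∀ (a v : Fin (n + 3) →₀ ℕ), a 0 = 0 → a 1 = 0 → ∑ i, a i + 1 ≤ r →
      deg (fun i : Fin (n + 3) => gf m K H r i) v =
      deg (fun i : Fin (n + 3) => gf m K H r i) a → v = a := by
    intro a v h0 h1 h2 h3
    rw [hK] at h3
    exact uniq n r m H hr (by rw [← hK]; exact hH3) hH2 a v h0 h1 h2 h3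
  have hone : ∀ i : Fin (n + 3), deg (fun i : Fin (n + 3) => gf m K H r i)
      (Finsupp.single i 1) = gf m K H r i := by
    intro i
    unfold deg
    rw [Finset.sum_eq_single i]
    · simp
    · intro b _ hb
      rw [Finsupp.single_apply, if_neg (Ne.symm hb), zero_mul]
    · simp
  have hs1 : ∀ i : Fin (n + 3), ∑ j, (Finsupp.single i 1 : Fin (n + 3) →₀ ℕ) j = 1 := by
    intro i
    rw [Finset.sum_eq_single i]
    · simp
    · intro b _ hb
      rw [Finsupp.single_apply, if_neg (Ne.symm hb)]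
    · simp
  refine ⟨fun i => gf m K H r i, ?_, rfl, ?_, ?_, ?_⟩
  · intro i j hij
    exact hmono hij
  · have h1 : (Finset.univ.gcd fun i : Fin (n + 3) => gf m K H r i) ∣ m :=
      Finset.gcd_dvd (Finset.mem_univ (0 : Fin (n + 3)))
    have h2 : (Finset.univ.gcd fun i : Fin (n + 3) => gf m K H r i) ∣ m + 1 :=
      Finset.gcd_dvd (Finset.mem_univ (1 : Fin (n + 3)))
    have h3 := (Nat.dvd_add_right h1).1 h2
    exact Nat.dvd_one.1 h3
  · intro i hi
    obtain ⟨v, hv, hv'⟩ := mem_cl _ i _ hi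
    by_cases hi0 : i = 0
    · subst hi0
      have h1 : deg (fun i : Fin (n + 3) => gf m K H r i) v = m := hv'
      have h2 : v = 0 := by
        by_contra hne
        obtain ⟨j, hj⟩ := Finsupp.ne_iff.1 hne
        have hj0 : j ≠ 0 := by rintro rfl; exact hj hv
        have hpos : 0 < v j := Nat.pos_of_ne_zero hj
        have h3 : gf m K H r 0 < gf m K H r j :=
          hmono (Nat.pos_of_ne_zero (fun h => hj0 (Fin.ext h)))
        have h4 : v j * gf m K H r j ≤ deg (fun i : Fin (n + 3) => gf m K H r i) v :=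
          Finset.single_le_sum (f := fun i : Fin (n + 3) => v i * gf m K H r i)
            (fun i _ => Nat.zero_le _) (Finset.mem_univ j)
        have h5 : gf m K H r j ≤ v j * gf m K H r j := Nat.le_mul_of_pos_left _ hpos
        have h6 : gf m K H r 0 = m := rfl
        omega
      rw [h2] at h1
      simp [deg] at h1
      omega
    by_cases hi1 : i = 1
    · subst hi1
      have h1 : deg (fun i : Fin (n + 3) => gf m K H r i) v = m + 1 := hv'
      have h2 : ∀ j : Fin (n + 3), j ≠ 0 → v j = 0 := by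
        intro j hj0
        by_contra hj
        have hj1 : j ≠ 1 := by rintro rfl; exact hj hv
        have hpos : 0 < v j := Nat.pos_of_ne_zero hj
        have hj2 : 1 < (j : ℕ) := by
          have a1 : (j : ℕ) ≠ 0 := fun h => hj0 (Fin.ext h)
          have a2 : (j : ℕ) ≠ 1 := fun h => hj1 (Fin.ext h)
          omega
        have h3 : gf m K H r 1 < gf m K H r j := hmono hj2
        have h4 : v j * gf m K H r j ≤ deg (fun i : Fin (n + 3) => gf m K H r i) v :=
          Finset.single_le_sum (f := fun i : Fin (n + 3) => v i * gf m K H r i)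
            (fun i _ => Nat.zero_le _) (Finset.mem_univ j)
        have h5 : gf m K H r j ≤ v j * gf m K H r j := Nat.le_mul_of_pos_left _ hpos
        have h6 : gf m K H r 1 = m + 1 := rfl
        omega
      have h3 : deg (fun i : Fin (n + 3) => gf m K H r i) v = v 0 * m := by
        unfold deg
        rw [Finset.sum_eq_single 0]
        · rfl
        · intro b _ hb
          rw [h2 b hb, zero_mul]
        · simp
      rw [h3] at h1
      have h4 : m ∣ 1 := by
        have h5 : m ∣ m + 1 := ⟨v 0, by rw [← h1, mul_comm]⟩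
        exact (Nat.dvd_add_right (dvd_refl m)).1 h5
      have := Nat.le_of_dvd Nat.one_pos h4
      omega
    · have h1 : v = Finsupp.single i 1 := by
        refine hUN _ _ ?_ ?_ ?_ ?_
        · rw [Finsupp.single_apply, if_neg hi0]
        · rw [Finsupp.single_apply, if_neg hi1]
        · rw [hs1]; omega
        · rw [hone]; exact hv'
      rw [h1] at hv
      simp at hv
  · -- the set E
    classical
    let F : (Fin n → Fin (r / n + 1)) → (Fin (n + 3) →₀ ℕ) := fun c =>
      Finsupp.equivFunOnFinite.symm (Fin.cons (n := n + 2) (α := fun _ => ℕ) 0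
        (Fin.cons (n := n + 1) (α := fun _ => ℕ) 0
          (Fin.cons (n := n) (α := fun _ => ℕ) (r - ∑ i, (c i : ℕ)) (fun i => (c i : ℕ)))))
    have hF0 : ∀ c, F c 0 = 0 := fun c => rfl
    have hF1 : ∀ c, F c 1 = 0 := fun c => rfl
    have hF2 : ∀ c, F c 2 = r - ∑ i, (c i : ℕ) := fun c => rfl
    have hF3 : ∀ c (i : Fin n), F c i.succ.succ.succ = (c i : ℕ) := fun c i => rfl
    have hsum : ∀ c : Fin n → Fin (r / n + 1), ∑ i, (c i : ℕ) ≤ r := by
      intro c
      calc ∑ i, (c i : ℕ) ≤ ∑ i : Fin n, r / n :=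
            Finset.sum_le_sum fun i _ => Nat.lt_succ_iff.1 (c i).2
        _ = n * (r / n) := by simp
        _ ≤ r := Nat.mul_div_le r n
    have hFs : ∀ c, ∑ i, F c i = r := by
      intro c
      rw [sum_v, hF0, hF1, hF2, Finset.sum_congr rfl (fun i _ => hF3 c i)]
      have := hsum c
      omega
    refine ⟨Finset.univ.image F, ?_, ?_, ?_⟩
    · rw [Finset.card_image_of_injective]
      · simp
      · intro c d hcd
        funext i
        apply Fin.ext
        rw [← hF3 c i, ← hF3 d i, hcd]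
    · intro u hu i hi v hv
      obtain ⟨c, -, rfl⟩ := Finset.mem_image.1 hu
      refine hUN _ _ ?_ ?_ ?_ hv
      · simp [hF0]
      · simp [hF1]
      · have h1 : F c = (F c - Finsupp.single i 1) + Finsupp.single i 1 := by
          rw [tsub_add_cancel_of_le]
          rw [Finsupp.single_le_iff]
          exact hi
        have h2 : ∑ j, F c j = ∑ j, (F c - Finsupp.single i 1 : Fin (n + 3) →₀ ℕ) j +
            ∑ j, (Finsupp.single i 1 : Fin (n + 3) →₀ ℕ) j := by
          rw [← Finset.sum_add_distrib]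
          conv_lhs => rw [h1]
          rfl
        rw [hFs, hs1] at h2
        omega
    · intro u hu
      obtain ⟨c, -, rfl⟩ := Finset.mem_image.1 hu
      obtain ⟨b, hb⟩ : ∃ b, b = ∑ i : Fin n, (c i : ℕ) * r ^ (i : ℕ) := ⟨_, rfl⟩
      have hb1 : b ≤ r * r ^ (n - 1) := by
        rw [hb]
        exact (beta_le n r (by omega) (fun i => (c i : ℕ))).trans
          (Nat.mul_le_mul_right _ (hsum c))
      obtain ⟨s, hs⟩ : ∃ s, s = (r * H - m) + b := ⟨_, rfl⟩
      have hs2 : s ≤ r * K := by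
        rw [hK, mul_add, mul_one]
        omega
      refine ⟨Finsupp.equivFunOnFinite.symm (Fin.cons (n := n + 2) (α := fun _ => ℕ)
        (r * K + 1 - s) (Fin.cons (n := n + 1) (α := fun _ => ℕ) s (fun _ => 0))), ?_, ?_⟩
      · intro hmem
        obtain ⟨d, -, hd⟩ := Finset.mem_image.1 hmem
        have h1 := hF0 d
        rw [hd] at h1
        have h2 : r * K + 1 - s = 0 := h1
        omega
      · rw [deg_g, deg_g, hF0, hF1, hF2, Finset.sum_congr rfl (fun i _ => hF3 c i)]
        have e1 : ∀ i : Fin n, F c i.succ.succ.succ * r ^ (i : ℕ) = (c i : ℕ) * r ^ (i : ℕ) :=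
          fun i => by rw [hF3]
        rw [Finset.sum_congr rfl (fun i _ => e1 i), ← hb]
        show (r * K + 1 - s) * m + s * (m + 1) + (0 + ∑ i : Fin n, 0) * (K * m + H) +
          ∑ i : Fin n, 0 * r ^ (i : ℕ) = 0 * m + 0 * (m + 1) +
          (r - ∑ i, (c i : ℕ) + ∑ i, (c i : ℕ)) * (K * m + H) + b
        rw [Nat.sub_add_cancel (hsum c)]
        simp only [Finset.sum_const_zero, zero_mul, add_zero, zero_add]
        obtain ⟨t, ht⟩ : ∃ t, r * K = s + t := ⟨r * K - s, by omega⟩
        have h3 : r * K + 1 - s = t + 1 := by omega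
        have h4 : r * H = m + (s - b) := by omega
        have h5 : b ≤ s := by omega
        rw [h3]
        calc (t + 1) * m + s * (m + 1) = (s + t) * m + (m + (s - b)) + b := by
              have : s = (s - b) + b := by omega
              nlinarith
          _ = r * (K * m + H) + b := by rw [← ht, ← h4]; ring

end Pool.Agent.W686.RG.FAM
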